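import Pool.Agent.Run7.h611.EhrG.Fin

/-!
For every nontrivial finite group `G` there is a lattice polytope with a faithful action of `G`,
whose equivariant H*-series is a polynomial but is not effective.

Let `n` be the order of `G`. The polytope is the join of the prism over the simplex with the vertex
set `G` and of a simplex with `n²` vertices, so its dimension is `n² + n`. The lattice (of the cone
over the polytope) is generated by the vertices and by `1/n` times the sum of the vertices of the
bottom of the prism and of the vertices of the second simplex. The group permutes the vertices of
the prism by translations and fixes the other ones. For an element `g` of order `o` the value of the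
equivariant H*-series is
`(1 - t) ∑_{k<n} (k+1) t^((n+1)k) + n t^o R(t)`, where `(1 + t + ⋯ + t^(o-1)) R(t) = ∑_{k<n} t^((n+1)k)`.
So for an element `g ≠ 1` of order `o` the virtual character `H*_o` has the value `0` at the identity
and the value `n` at `g`.
-/

open Run7.h611.EhrG

namespace Pool.Agent.Results.MP_3885fd_co.EveryGroup

/-- For every nontrivial finite group `G` there is a lattice polytope of dimension `|G|² + |G|` with
a faithful action of `G`, whose equivariant H*-series is a polynomial but is not effective. -/
theorem result (G : Type) [Group G] [Finite G] [Nontrivial G] :
    ∃ (ι : Type) (_ : Fintype ι) (_ : DecidableEq ι) (A : InvariantPolytope G ι),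
      Fintype.card ι = Nat.card G ^ 2 + Nat.card G ∧ Function.Injective A.act ∧
        A.IsPolynomial ∧ ¬ A.IsEffective := by
  classical
  have : Fintype G := Fintype.ofFinite G
  have h2 : 2 ≤ Fintype.card G := Fintype.one_lt_card_iff_nontrivial.mpr inferInstance
  refine ⟨G ⊕ JJ (Fintype.card G), inferInstance, inferInstance, AG G _ rfl h2, ?_,
    actHom_injective, isPolynomial rfl h2, not_isEffective rfl h2⟩
  rw [Fintype.card_sum, card_JJ h2, Nat.card_eq_fintype_card, add_comm]

end Pool.Agent.Results.MP_3885fd_co.EveryGroup
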